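import Pool.Agent.Y262.QE.Stm

/-!
# Project QE: integration by parts on the cylinder
-/

set_option autoImplicit false

open Set Filter Topology MeasureTheory
open scoped Real ContDiff ComplexConjugate

noncomputable section

namespace Pool.Agent.Y365.QE

open Pool.Agent.Y262.QE

theorem isOpen_strip (L : ℝ) : IsOpen (Strip L) := by
  have h1 : IsOpen {z : ℂ | 0 < z.re} := isOpen_lt continuous_const Complex.continuous_re
  have h2 : IsOpen {z : ℂ | z.re < L} := isOpen_lt Complex.continuous_re continuous_const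
  exact h1.inter h2

/-- the product of a function of `Re z` with support in the strip and a function which is continuous
on the strip is continuous -/
theorem cont_mul {L : ℝ} {K : Set ℝ} (hK : IsClosed K) (hKL : K ⊆ Ioo 0 L) {g : ℝ → ℝ}
    {H : ℂ → ℝ} (hg : Continuous g) (hz : ∀ x, x ∉ K → g x = 0)
    (hH : ContinuousOn H (Strip L)) : Continuous (fun z : ℂ => g z.re * H z) := by
  rw [continuous_iff_continuousAt]
  intro z
  by_cases hz' : z.re ∈ K
  · have h1 : z ∈ Strip L := hKL hz'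
    exact (hg.comp Complex.continuous_re).continuousAt.mul
      (hH.continuousAt ((isOpen_strip L).mem_nhds h1))
  · have h3 : ∀ᶠ x in 𝓝 z.re, g x = 0 := by
      filter_upwards [hK.isOpen_compl.mem_nhds hz'] with x hx
      exact hz x hx
    have h1 : (fun z : ℂ => g z.re * H z) =ᶠ[𝓝 z] fun _ => 0 := by
      filter_upwards [Complex.continuous_re.continuousAt.eventually h3] with w hw
      rw [hw, zero_mul]
    exact continuousAt_const.congr h1.symm

/-- derivative in the direction of the real axis -/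
theorem hasDerivAt_x {L : ℝ} {K : Set ℝ} (hK : IsClosed K) (hKL : K ⊆ Ioo 0 L) {g g' : ℝ → ℝ}
    {G : ℂ → ℝ} (hg : ∀ x, HasDerivAt g (g' x) x) (hz : ∀ x, x ∉ K → g x = 0)
    (hG : ContDiffOn ℝ 1 G (Strip L)) (x y : ℝ) :
    HasDerivAt (fun x : ℝ => g x * G ⟨x, y⟩)
      (g' x * G ⟨x, y⟩ + g x * fderiv ℝ G ⟨x, y⟩ 1) x := by
  by_cases hx : x ∈ K
  · have h1 : (⟨x, y⟩ : ℂ) ∈ Strip L := hKL hx
    have h2 : DifferentiableAt ℝ G (⟨x, y⟩ : ℂ) :=
      (hG.contDiffAt ((isOpen_strip L).mem_nhds h1)).differentiableAt (by norm_num)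
    have h3 : HasDerivAt (fun x : ℝ => (⟨x, y⟩ : ℂ)) 1 x := by
      have h4 : (fun x : ℝ => (⟨x, y⟩ : ℂ)) = fun x : ℝ => (x : ℂ) + y * Complex.I := by
        funext t; apply Complex.ext <;> simp
      rw [h4]
      simpa using (Complex.ofRealCLM.hasDerivAt (x := x)).add_const (y * Complex.I)
    have h5 : HasDerivAt (fun x : ℝ => G ⟨x, y⟩) (fderiv ℝ G ⟨x, y⟩ 1) x :=
      h2.hasFDerivAt.comp_hasDerivAt x h3
    exact (hg x).mul h5
  · have h3 : ∀ᶠ t in 𝓝 x, g t = 0 := by
      filter_upwards [hK.isOpen_compl.mem_nhds hx] with t ht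
      exact hz t ht
    have h4 : HasDerivAt g 0 x := (hasDerivAt_const x (0 : ℝ)).congr_of_eventuallyEq h3
    have h5 : g' x = 0 := (hg x).unique h4
    have h6 : HasDerivAt (fun x : ℝ => g x * G ⟨x, y⟩) 0 x := by
      apply (hasDerivAt_const x (0 : ℝ)).congr_of_eventuallyEq
      filter_upwards [h3] with t ht
      rw [ht, zero_mul]
    rw [h5, hz x hx, zero_mul, zero_mul, add_zero]
    exact h6

/-- derivative in the direction of the imaginary axis -/
theorem hasDerivAt_y {L : ℝ} {G : ℂ → ℝ} (hG : ContDiffOn ℝ 1 G (Strip L)) (x y : ℝ)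
    (hx : x ∈ Ioo 0 L) :
    HasDerivAt (fun y : ℝ => G ⟨x, y⟩) (fderiv ℝ G ⟨x, y⟩ Complex.I) y := by
  have h1 : (⟨x, y⟩ : ℂ) ∈ Strip L := hx
  have h2 : DifferentiableAt ℝ G (⟨x, y⟩ : ℂ) :=
    (hG.contDiffAt ((isOpen_strip L).mem_nhds h1)).differentiableAt (by norm_num)
  have h3 : HasDerivAt (fun y : ℝ => (⟨x, y⟩ : ℂ)) Complex.I y := by
    have h4 : (fun y : ℝ => (⟨x, y⟩ : ℂ)) = fun y : ℝ => (x : ℂ) + (y : ℂ) * Complex.I := by
      funext t; apply Complex.ext <;> simp
    rw [h4]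
    simpa using ((Complex.ofRealCLM.hasDerivAt (x := y)).mul_const Complex.I).const_add (x : ℂ)
  exact h2.hasFDerivAt.comp_hasDerivAt y h3

theorem rec_eq (L : ℝ) : Rec L (-π) =
    Complex.measurableEquivRealProd ⁻¹' (Ioo 0 L ×ˢ Ioo (-π) (-π + 2 * π)) := by
  ext z
  simp only [Rec, mem_ofPred_eq, mem_preimage, mem_prod, mem_Ioo,
    Complex.measurableEquivRealProd_apply]

theorem rec_int (L : ℝ) (f : ℂ → ℝ) : ∫ z in Rec L (-π), f z =
    ∫ p in Ioo 0 L ×ˢ Ioo (-π) (-π + 2 * π), f ⟨p.1, p.2⟩ := by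
  rw [rec_eq]
  exact Complex.volume_preserving_equiv_real_prod.setIntegral_preimage_emb
    Complex.measurableEquivRealProd.measurableEmbedding
    (fun p : ℝ × ℝ => f ⟨p.1, p.2⟩) (Ioo 0 L ×ˢ Ioo (-π) (-π + 2 * π))

theorem cont_mk : Continuous fun p : ℝ × ℝ => (⟨p.1, p.2⟩ : ℂ) :=
  Complex.equivRealProdCLM.symm.continuous

theorem prod_integrable (L : ℝ) (f : ℂ → ℝ) (hf : Continuous f) :
    IntegrableOn (fun p : ℝ × ℝ => f ⟨p.1, p.2⟩) (Ioo 0 L ×ˢ Ioo (-π) (-π + 2 * π)) := by
  have h1 : Continuous fun p : ℝ × ℝ => f ⟨p.1, p.2⟩ := hf.comp cont_mk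
  have h2 : IsCompact (Icc 0 L ×ˢ Icc (-π) (-π + 2 * π)) := isCompact_Icc.prod isCompact_Icc
  exact (h1.continuousOn.integrableOn_compact h2).mono_set
    (prod_mono Ioo_subset_Icc_self Ioo_subset_Icc_self)

theorem rec_integrable (L : ℝ) (f : ℂ → ℝ) (hf : Continuous f) :
    IntegrableOn f (Rec L (-π)) := by
  rw [rec_eq]
  have h := (Complex.volume_preserving_equiv_real_prod.integrableOn_comp_preimage
    Complex.measurableEquivRealProd.measurableEmbedding
    (f := fun p : ℝ × ℝ => f ⟨p.1, p.2⟩) (s := Ioo 0 L ×ˢ Ioo (-π) (-π + 2 * π))).2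
    (prod_integrable L f hf)
  exact h

theorem rec_xy (L : ℝ) (f : ℂ → ℝ) (hf : Continuous f) : ∫ z in Rec L (-π), f z =
    ∫ x in Ioo 0 L, ∫ y in Ioo (-π) (-π + 2 * π), f ⟨x, y⟩ := by
  rw [rec_int]
  exact setIntegral_prod (fun p : ℝ × ℝ => f ⟨p.1, p.2⟩) (prod_integrable L f hf)

theorem rec_yx (L : ℝ) (f : ℂ → ℝ) (hf : Continuous f) : ∫ z in Rec L (-π), f z =
    ∫ y in Ioo (-π) (-π + 2 * π), ∫ x in Ioo 0 L, f ⟨x, y⟩ := by
  rw [rec_int]
  have h := prod_integrable L f hf
  rw [IntegrableOn, Measure.volume_eq_prod, ← Measure.prod_restrict] at h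
  rw [Measure.volume_eq_prod, ← Measure.prod_restrict]
  exact integral_prod_symm (fun p : ℝ × ℝ => f ⟨p.1, p.2⟩) h

theorem ibp : StIBP := by
  intro L G η m hL hG hper hη
  obtain ⟨hη1, -, hη3⟩ := hη
  set kk : ℝ := (m : ℝ) + 1 with hkk
  set K : Set ℝ := tsupport η with hKdef
  have hK : IsClosed K := isClosed_tsupport η
  have hη0 : ∀ x, x ∉ K → η x = 0 := fun x hx => image_eq_zero_of_notMem_tsupport hx
  have hη0' : ∀ x, x ∉ K → deriv η x = 0 := by
    intro x hx
    by_contra h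
    exact hx (support_deriv_subset h)
  have hi2 : iteratedDeriv 2 η = deriv (deriv η) := by
    rw [iteratedDeriv_succ, iteratedDeriv_one]
  have hη0'' : ∀ x, x ∉ K → iteratedDeriv 2 η x = 0 := by
    intro x hx
    rw [hi2]
    by_contra h
    have h1 : x ∈ tsupport (deriv η) := support_deriv_subset h
    exact hx (closure_minimal support_deriv_subset hK h1)
  have hc0 : Continuous η := hη1.continuous
  have hc1 : Continuous (deriv η) := hη1.continuous_deriv (by simp)
  have hd1 : ContDiff ℝ ∞ (deriv η) := by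
    have h2 : ContDiff ℝ ((∞ : ℕ∞ω) + 1) η := by simpa using hη1
    exact ((contDiff_succ_iff_deriv (n := (∞ : ℕ∞ω))).1 h2).2.2
  have hc2 : Continuous (iteratedDeriv 2 η) := by
    rw [hi2]
    exact hd1.continuous_deriv (by simp)
  have hD0 : ∀ x, HasDerivAt η (deriv η x) x := fun x =>
    (hη1.differentiable (by simp) x).hasDerivAt
  have hD1 : ∀ x, HasDerivAt (deriv η) (iteratedDeriv 2 η x) x := fun x => by
    rw [hi2]; exact (hd1.differentiable (by simp) x).hasDerivAt
  have hGc : ContinuousOn G (Strip L) := hG.continuousOn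
  have hGf : ContinuousOn (fun z => fderiv ℝ G z) (Strip L) :=
    hG.continuousOn_fderiv_of_isOpen (isOpen_strip L) le_rfl
  have hG1 : ContinuousOn (fun z => fderiv ℝ G z 1) (Strip L) := hGf.clm_apply continuousOn_const
  have hGI : ContinuousOn (fun z => fderiv ℝ G z Complex.I) (Strip L) :=
    hGf.clm_apply continuousOn_const
  have hsin : Continuous fun z : ℂ => Real.sin (kk * z.im) :=
    Real.continuous_sin.comp (continuous_const.mul Complex.continuous_im)
  have hcos : Continuous fun z : ℂ => Real.cos (kk * z.im) :=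
    Real.continuous_cos.comp (continuous_const.mul Complex.continuous_im)
  -- the two total derivatives
  set D1 : ℂ → ℝ := fun z => Real.sin (kk * z.im) * (iteratedDeriv 2 η z.re * G z) +
    Real.sin (kk * z.im) * (deriv η z.re * fderiv ℝ G z 1) with hD1def
  set D2 : ℂ → ℝ := fun z => -(kk ^ 2 * (Real.sin (kk * z.im) * (η z.re * G z))) +
    kk * (Real.cos (kk * z.im) * (η z.re * fderiv ℝ G z Complex.I)) with hD2def
  set B : ℂ → ℝ := fun z => Real.sin (kk * z.im) * (-(iteratedDeriv 2 η z.re * G z)) +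
    kk ^ 2 * (Real.sin (kk * z.im) * (η z.re * G z)) with hBdef
  have hcD1 : Continuous D1 :=
    (hsin.mul (cont_mul hK hη3 hc2 hη0'' hGc)).add (hsin.mul (cont_mul hK hη3 hc1 hη0' hG1))
  have hcD2 : Continuous D2 :=
    (continuous_const.mul (hsin.mul (cont_mul hK hη3 hc0 hη0 hGc))).neg.add
      (continuous_const.mul (hcos.mul (cont_mul hK hη3 hc0 hη0 hGI)))
  have hcB : Continuous B :=
    (hsin.mul (cont_mul hK hη3 hc2 hη0'' hGc).neg).add
      (continuous_const.mul (hsin.mul (cont_mul hK hη3 hc0 hη0 hGc)))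
  have h0K : (0 : ℝ) ∉ K := fun h => lt_irrefl _ (hη3 h).1
  have hLK : L ∉ K := fun h => lt_irrefl _ (hη3 h).2
  have hI1 : ∫ z in Rec L (-π), D1 z = 0 := by
    rw [rec_yx L D1 hcD1]
    apply integral_eq_zero_of_ae
    refine Eventually.of_forall fun y => ?_
    show ∫ x in Ioo 0 L, D1 ⟨x, y⟩ = 0
    rw [← integral_Ioc_eq_integral_Ioo, ← intervalIntegral.integral_of_le hL.le]
    have h1 : ∀ x ∈ uIcc 0 L, HasDerivAt (fun x : ℝ => Real.sin (kk * y) * (deriv η x * G ⟨x, y⟩))
        (D1 ⟨x, y⟩) x := by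
      intro x _
      have h2 := (hasDerivAt_x hK hη3 hD1 hη0' hG x y).const_mul (Real.sin (kk * y))
      have h3 : D1 ⟨x, y⟩ = Real.sin (kk * y) *
          (iteratedDeriv 2 η x * G ⟨x, y⟩ + deriv η x * fderiv ℝ G ⟨x, y⟩ 1) := by
        simp only [hD1def]; ring
      rw [h3]
      exact h2
    rw [intervalIntegral.integral_eq_sub_of_hasDerivAt h1]
    · rw [hη0' 0 h0K, hη0' L hLK]; simp
    · apply Continuous.intervalIntegrable
      exact hcD1.comp (cont_mk.comp (continuous_id.prodMk continuous_const))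
  have hI2 : ∫ z in Rec L (-π), D2 z = 0 := by
    rw [rec_xy L D2 hcD2]
    apply setIntegral_eq_zero_of_forall_eq_zero
    intro x hx
    have hpi : (-π : ℝ) ≤ -π + 2 * π := by linarith [Real.pi_pos]
    rw [← integral_Ioc_eq_integral_Ioo, ← intervalIntegral.integral_of_le hpi]
    have h1 : ∀ y ∈ uIcc (-π) (-π + 2 * π),
        HasDerivAt (fun y : ℝ => kk * η x * (Real.cos (kk * y) * G ⟨x, y⟩)) (D2 ⟨x, y⟩) y := by
      intro y _
      have h3 : HasDerivAt (fun y : ℝ => kk * y) kk y := by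
        simpa using (hasDerivAt_id y).const_mul kk
      have h2 := ((h3.cos).mul (hasDerivAt_y hG x y hx)).const_mul (kk * η x)
      have h7 : D2 ⟨x, y⟩ = kk * η x * (-Real.sin (kk * y) * kk * G ⟨x, y⟩ +
          Real.cos (kk * y) * fderiv ℝ G ⟨x, y⟩ Complex.I) := by
        simp only [hD2def]; ring
      rw [h7]
      exact h2
    rw [intervalIntegral.integral_eq_sub_of_hasDerivAt h1]
    · have h4 : G ⟨x, -π + 2 * π⟩ = G ⟨x, -π⟩ := by
        rw [← hper ⟨x, -π⟩]
        congr 1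
        apply Complex.ext <;> simp
      have h5 : Real.cos (kk * (-π + 2 * π)) = Real.cos (kk * (-π)) := by
        have h6 : kk * (-π + 2 * π) = kk * (-π) + ((m + 1 : ℕ) : ℝ) * (2 * π) := by
          rw [hkk]; push_cast; ring
        rw [h6, Real.cos_add_nat_mul_two_pi]
      rw [h4, h5, sub_self]
    · apply Continuous.intervalIntegrable
      exact hcD2.comp (cont_mk.comp (continuous_const.prodMk continuous_id))
  have hV : ∀ z : ℂ, HasFDerivAt (Vf η m)
      (η z.re • ((kk * Real.cos (kk * z.im)) • Complex.imCLM) +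
        Real.sin (kk * z.im) • ((deriv η z.re) • Complex.reCLM)) z := by
    intro z
    have h1 : HasFDerivAt (fun z : ℂ => η z.re) ((deriv η z.re) • Complex.reCLM) z :=
      (hD0 z.re).comp_hasFDerivAt z Complex.reCLM.hasFDerivAt
    have h3 : HasDerivAt (fun y : ℝ => Real.sin (kk * y)) (kk * Real.cos (kk * z.im)) z.im := by
      have h4 : HasDerivAt (fun y : ℝ => kk * y) kk z.im := by
        simpa using (hasDerivAt_id z.im).const_mul kk
      have h5 := h4.sin
      rwa [mul_comm] at h5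
    have h2 : HasFDerivAt (fun z : ℂ => Real.sin (kk * z.im))
        ((kk * Real.cos (kk * z.im)) • Complex.imCLM) z :=
      h3.comp_hasFDerivAt z Complex.imCLM.hasFDerivAt
    exact h1.mul h2
  have hV1 : ∀ z : ℂ, fderiv ℝ (Vf η m) z 1 = Real.sin (kk * z.im) * deriv η z.re := by
    intro z
    rw [(hV z).fderiv]
    simp
  have hVI : ∀ z : ℂ, fderiv ℝ (Vf η m) z Complex.I = η z.re * (kk * Real.cos (kk * z.im)) := by
    intro z
    rw [(hV z).fderiv]
    simp
  have hA : ∀ z : ℂ, fderiv ℝ (Vf η m) z 1 * fderiv ℝ G z 1 +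
      fderiv ℝ (Vf η m) z Complex.I * fderiv ℝ G z Complex.I = B z + (D1 z + D2 z) := by
    intro z
    rw [hV1, hVI]
    simp only [hBdef, hD1def, hD2def]
    ring
  have hB : ∀ z : ℂ, (-(iteratedDeriv 2 η z.re) + kk ^ 2 * η z.re) *
        Real.sin (kk * z.im) * G z = B z := by
    intro z
    simp only [hBdef]
    ring
  simp_rw [hA, hB]
  have hadd : IntegrableOn (fun z => D1 z + D2 z) (Rec L (-π)) :=
    rec_integrable L _ (hcD1.add hcD2)
  rw [integral_add (f := B) (g := fun z => D1 z + D2 z) (rec_integrable L B hcB) hadd,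
    integral_add (rec_integrable L D1 hcD1) (rec_integrable L D2 hcD2), hI1, hI2]
  simp

end Pool.Agent.Y365.QE
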